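import Pool.Agent.T6.H10.MD.Fin

set_option autoImplicit false

/-!
# MP_f9aece_nt: the moment conjecture on the critical line for the derivatives of the Riemann Xi function

Let `Ξ(z) = ξ(1/2 + iz)` and `γ(t) = |s(s-1)/2 π^(-s/2) Γ(s/2)|`, `s = 1/2 + it`, so that `|Ξ(t)| = γ(t) |ζ(1/2 + it)|`.
For every real order `0 < β ≤ 4` the normalised moment ON the critical line of the `n`-th derivative

`M_n(T) = (1/T) ∫_T^2T ( |Ξ^(n)(t)| / (γ(t) (½ log T)^n) )^β dt`

(for `n = 0` it is the moment of zeta of the problem) satisfies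

`M_n(T) = (1 + O(ε)) c(β) a(β/2) (log T / (4 n))^(β²/4)`, `c(β) = (1/2π) ∫_0^2π |2 cos x|^β dx`,

uniformly for `n₀(ε) ≤ n ≤ η(ε) log T`; here `a` is the arithmetic factor of the moment conjecture. So the conjecture
holds for the derivatives of every fixed large order up to a factor which tends to `1` as the order grows, and
exactly (as an asymptotic formula) for all orders `n(T) → ∞`, `n(T) = o(log T)`.

Proof: Cauchy's formula on the circle of radius `2 n / log T` and the functional equation express `Ξ^(n)` on the line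
as twice the real (or imaginary) part of a weighted mean of zeta over the right half circle; the weight concentrates at
the point at distance `2 n / log T` to the right of the line, where the moments are known (starting modules
`Pool.Agent.Y755`); the moments on and near the line, which enter with a factor `exp (-c n)`, are bounded by the
starting modules `Pool.Agent.Y745.UP` and imports; the phase is averaged over periods.
-/

open Complex Filter Topology

namespace Pool.Agent.Results.MP_f9aece_nt.HighDerivatives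

noncomputable section

/-- `Ξ(z) = ξ(s)`, `s = 1/2 + iz`, `ξ(s) = s (s - 1) / 2 π^(-s/2) Γ(s/2) ζ(s)`, written through Mathlib's entire function
`completedRiemannZeta₀ s = π^(-s/2) Γ(s/2) ζ(s) + 1/s + 1/(1-s)` -/
def Xi (z : ℂ) : ℂ :=
  ((1 / 2 + I * z) * (1 / 2 + I * z - 1) * completedRiemannZeta₀ (1 / 2 + I * z) + 1) / 2

/-- `γ(t) = |s (s - 1) / 2 π^(-s/2) Γ(s/2)|`, `s = 1/2 + it` -/
def gam (t : ℝ) : ℝ := ‖(1 / 2 + I * t) * (1 / 2 + I * t - 1) / 2 * Gammaℝ (1 / 2 + I * t)‖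

/-- the normalised moment of order `β` of the `n`-th derivative of `Ξ` on the critical line, over `[T, 2T]` -/
def M (β : ℝ) (n : ℕ) (T : ℝ) : ℝ :=
  1 / T * ∫ t in T..(2 * T), (‖iteratedDeriv n Xi (t : ℂ)‖ / (gam t * (Real.log T / 2) ^ n)) ^ β

/-- the mean of `|2 cos x| ^ β` over a period -/
def cc (β : ℝ) : ℝ := 1 / (2 * Real.pi) * ∫ x in (0:ℝ)..(2 * Real.pi), |2 * Real.cos x| ^ β

/-- The arithmetic factor `a κ = ∏_p (1 - 1/p)^(κ²) ∑_m (Γ(κ+m) / (Γ(κ) m!))² p^(-m)` of the moment conjecture. -/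
def aa (κ : ℝ) : ℝ :=
  ∏' p : Nat.Primes, ((1 - ((p : ℕ) : ℝ)⁻¹) ^ (κ ^ 2) *
    ∑' m : ℕ, (Real.Gamma (κ + m) / (Real.Gamma κ * (m.factorial : ℝ))) ^ 2 * ((p : ℕ) : ℝ)⁻¹ ^ m)

/-- for `n = 0` the function under the integral is `|ζ(1/2 + it)|` -/
theorem Xi_zeta (t : ℝ) (ht : 0 < t) : ‖Xi t‖ = gam t * ‖riemannZeta (1 / 2 + I * t)‖ := by
  have h1 := Pool.Agent.H24R2.JP.ZetaTask.part1 (I * t) (by simpa using ht)
  have h2 : Xi t = Pool.Agent.H24R2.JP.XX (I * t) / 8 := by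
    unfold Xi Pool.Agent.H24R2.JP.XX; ring
  rw [h2, h1]
  unfold gam Pool.Agent.H24R2.JP.HH
  rw [← norm_mul]
  congr 1; ring

lemma lc_gamma (κ : ℝ) (hκ : 0 < κ) (m : ℕ) :
    Pool.Agent.H306R2.lc κ m = Real.Gamma (κ + m) / (Real.Gamma κ * (m.factorial : ℝ)) := by
  have hG : Real.Gamma κ ≠ 0 := (Real.Gamma_pos_of_pos hκ).ne'
  unfold Pool.Agent.H306R2.lc
  induction m with
  | zero => simp [hG]
  | succ m ih =>
    rw [Finset.prod_range_succ, ih]
    have h1 : κ + ((m + 1 : ℕ) : ℝ) = (κ + m) + 1 := by push_cast; ring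
    have h2 : κ + (m : ℝ) ≠ 0 := by positivity
    rw [h1, Real.Gamma_add_one h2, Nat.factorial_succ]
    have h3 : (m.factorial : ℝ) ≠ 0 := by exact_mod_cast m.factorial_ne_zero
    have h4 : (m : ℝ) + 1 ≠ 0 := by positivity
    push_cast
    field_simp

lemma aF_eq (κ : ℝ) (hκ : 0 < κ) : Pool.Agent.H306R2.aF κ = aa κ := by
  unfold Pool.Agent.H306R2.aF aa
  refine tprod_congr fun p => ?_
  rw [one_div]
  congr 1
  refine tsum_congr fun m => ?_
  rw [lc_gamma κ hκ]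

lemma deriv_eq (n : ℕ) (t : ℝ) (L : ℝ) :
    ‖iteratedDeriv n Xi (t : ℂ)‖ / (gam t * L ^ n) = Pool.Agent.T6.H10.MD.VV n L t := by
  have hX := Pool.Agent.H24R2.JP.B1h.XX_diff
  have h1 : Xi = fun z => (1 / 8 : ℂ) * (fun w => Pool.Agent.H24R2.JP.XX w) (I * z) := by
    funext z
    unfold Xi Pool.Agent.H24R2.JP.XX
    ring
  have h2 : iteratedDeriv n Xi t = (1 / 8 : ℂ) * (I ^ n * iteratedDeriv n Pool.Agent.H24R2.JP.XX (I * t)) := by
    have e2 : ContDiff ℂ n (fun w : ℂ => Pool.Agent.H24R2.JP.XX w) := hX.contDiff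
    rw [h1, iteratedDeriv_const_mul_field, iteratedDeriv_comp_const_mul e2]
  have h3 : gam t = ‖Pool.Agent.H24R2.JP.HH (I * t)‖ / 8 := by
    unfold gam Pool.Agent.H24R2.JP.HH
    rw [show (1 / 2 + I * (t:ℂ)) * (1 / 2 + I * t - 1) / 2 * Gammaℝ (1 / 2 + I * t) =
      ((4 * (I * (t:ℂ)) ^ 2 - 1) * Gammaℝ (1 / 2 + I * t)) / 8 by ring, norm_div]
    norm_num
  rw [h2, h3, norm_mul, norm_mul, norm_pow, Complex.norm_I, one_pow, one_mul]
  unfold Pool.Agent.T6.H10.MD.VV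
  have h4 : ‖(1 / 8 : ℂ)‖ = 1 / 8 := by norm_num
  rw [h4]
  have h5 : ‖Pool.Agent.H24R2.JP.HH (I * t)‖ / 8 * L ^ n = (‖Pool.Agent.H24R2.JP.HH (I * t)‖ * L ^ n) / 8 := by ring
  rw [h5, one_div_mul_eq_div, div_div_div_cancel_right₀ (by norm_num)]

/-- the uniform statement -/
theorem main {β : ℝ} (hβ : 0 < β) (hβ4 : β ≤ 4) {ε : ℝ} (hε : 0 < ε) : ∃ n₀ : ℕ, ∃ η : ℝ, 0 < η ∧
    ∀ᶠ T : ℝ in atTop, ∀ n : ℕ, n₀ ≤ n → (n : ℝ) ≤ η * Real.log T →
      |M β n T / (cc β * aa (β / 2) * (Real.log T / (4 * n)) ^ (β ^ 2 / 4)) - 1| ≤ ε := by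
  have hα0 : 0 < β / 2 := by positivity
  have haF : 0 < Pool.Agent.H306R2.aF (β / 2) := Pool.Agent.H306R2.aF_pos hα0
  set e : ℝ := min (ε / 16) (1 / 16) with he
  have he0 : 0 < e := lt_min (by positivity) (by norm_num)
  have he1 : 16 * e ≤ ε := by have := min_le_left (ε / 16) (1 / 16); linarith
  have he2 : e ≤ 1 / 16 := min_le_right _ _
  obtain ⟨n0, h0, hn01, hh0, hh16, hkey⟩ := Pool.Agent.T6.H10.MD.key hβ hβ4 he0 (by linarith)
  obtain ⟨δ4, hδ4, -, hDD⟩ := Pool.Agent.T6.H10.MD.DD_unif hα0 (mul_pos he0 haF)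
  refine ⟨n0, min h0 δ4 / 2, by have := lt_min hh0 hδ4; positivity, ?_⟩
  filter_upwards [hkey, Real.tendsto_log_atTop.eventually_ge_atTop 1, eventually_ge_atTop 1] with T hT hlog hT1 n hn hnη
  have hT0 : 0 < T := by linarith
  have hn0 : (0:ℝ) < n := by
    have : 1 ≤ n := hn01.trans hn
    exact_mod_cast this
  have hlog0 : 0 < Real.log T := by linarith
  set L : ℝ := Real.log T / 2 with hL
  have hL0 : 0 < L := by rw [hL]; linarith
  set h : ℝ := n / L with hh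
  have hhp : 0 < h := by rw [hh]; positivity
  have hhm : h ≤ min h0 δ4 := by
    rw [hh, div_le_iff₀ hL0, hL]; linarith
  obtain ⟨g1, g2⟩ := hT n L h hn hL hh (hhm.trans (min_le_left _ _))
  have g3 := abs_le.1 (hDD h hhp (hhm.trans (min_le_right _ _)))
  have e1 : (β / 2) ^ 2 = β ^ 2 / 4 := by ring
  rw [e1] at g3
  set D := Pool.Agent.Y755.DD (β / 2) h with hD
  set F := Pool.Agent.H306R2.aF (β / 2) with hF
  have hcc : cc β = Pool.Agent.T6.H10.MD.cb β := rfl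
  have hcb := Pool.Agent.T6.H10.MD.cb_pos hβ
  rw [hcc, ← aF_eq _ hα0, ← hF]
  set c := Pool.Agent.T6.H10.MD.cb β with hc
  have e2 : (Real.log T / (4 * n)) ^ (β ^ 2 / 4) = ((2 * h) ^ (β ^ 2 / 4))⁻¹ := by
    rw [← Real.inv_rpow (by positivity)]
    congr 1
    rw [hh, hL]; field_simp; norm_num
  rw [e2]
  set p := (2 * h) ^ (β ^ 2 / 4) with hp
  have hp0 : 0 < p := by positivity
  have e3 : M β n T = 1 / T * ∫ t in T..(2 * T), Pool.Agent.T6.H10.MD.VV n L t ^ β := by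
    unfold M
    congr 1
    refine intervalIntegral.integral_congr fun t _ => ?_
    rw [deriv_eq]
  rw [e3]
  set J := ∫ t in T..(2 * T), Pool.Agent.T6.H10.MD.VV n L t ^ β with hJ
  have e4 : 1 / T * J / (c * F * p⁻¹) = J / (c * (T * D)) * (p * D / F) := by
    have hD1 := Pool.Agent.Y755.DD_ge_one hα0 hhp
    have hD0 : D ≠ 0 := by rw [hD]; linarith
    field_simp
  rw [e4]
  have hD0 : 0 < D := by
    have := Pool.Agent.Y755.DD_ge_one hα0 hhp
    rw [hD]; linarith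
  have hX : 0 < c * (T * D) := by positivity
  have k1 : 1 - 3 * e ≤ J / (c * (T * D)) := by rw [le_div_iff₀ hX]; exact g1
  have k2 : J / (c * (T * D)) ≤ 1 + 4 * e := by rw [div_le_iff₀ hX]; exact g2
  have k3 : 1 - e ≤ p * D / F := by rw [le_div_iff₀ haF]; linarith [g3.1]
  have k4 : p * D / F ≤ 1 + e := by rw [div_le_iff₀ haF]; linarith [g3.2]
  set x := J / (c * (T * D))
  set y := p * D / F
  rw [abs_le]
  constructor
  · have : (1 - 3 * e) * (1 - e) ≤ x * y :=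
      mul_le_mul k1 k3 (by linarith) (by linarith)
    nlinarith
  · have : x * y ≤ (1 + 4 * e) * (1 + e) :=
      mul_le_mul k2 k4 (by linarith) (by linarith)
    nlinarith

theorem result (β : ℝ) (hβ : 0 < β) (hβ4 : β ≤ 4) : 0 < cc β * aa (β / 2) ∧
    (∀ ε : ℝ, 0 < ε → ∃ n₀ : ℕ, ∃ η : ℝ, 0 < η ∧ ∀ᶠ T : ℝ in atTop, ∀ n : ℕ, n₀ ≤ n → (n : ℝ) ≤ η * Real.log T →
      |M β n T / (cc β * aa (β / 2) * (Real.log T / (4 * n)) ^ (β ^ 2 / 4)) - 1| ≤ ε) ∧
    (∀ n : ℝ → ℕ, Tendsto n atTop atTop → Tendsto (fun T : ℝ => (n T : ℝ) / Real.log T) atTop (𝓝 0) →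
      Tendsto (fun T : ℝ => M β (n T) T / (cc β * aa (β / 2) * (Real.log T / (4 * n T)) ^ (β ^ 2 / 4)))
        atTop (𝓝 1)) := by
  have hα0 : 0 < β / 2 := by positivity
  refine ⟨?_, fun ε hε => main hβ hβ4 hε, fun n hn hnL => ?_⟩
  · rw [← aF_eq _ hα0]
    exact mul_pos (Pool.Agent.T6.H10.MD.cb_pos hβ) (Pool.Agent.H306R2.aF_pos hα0)
  · rw [Metric.tendsto_nhds]
    intro ε hε
    obtain ⟨n0, η, hη, h1⟩ := main hβ hβ4 (half_pos hε)
    filter_upwards [h1, hn.eventually_ge_atTop n0, hnL.eventually (ge_mem_nhds hη), eventually_gt_atTop 1] with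
      T h2 h3 h4 h5
    have hL := Real.log_pos h5
    rw [div_le_iff₀ hL] at h4
    rw [Real.dist_eq]
    exact lt_of_le_of_lt (h2 (n T) h3 h4) (half_lt_self hε)

end

end Pool.Agent.Results.MP_f9aece_nt.HighDerivatives
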