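import Pool.Agent.T6.H6.MA.Shift

set_option autoImplicit false

/-!
# MP_f9aece_nt: all moments of order `0 < β < 4` of the means of zeta over short intervals of the critical line

Let `0 < β < 4` be real. There is a constant `L > 0` such that, for every real `x` and every function `h(T) → 0` with
`h(T) log T → ∞`, the mean of `μ_T(y) = ζ(1/2 + i y + i u T)` (with `u` uniform on `[0, 1]`) over the interval
`[x, x + h(T)]` satisfies
`E |(1/h) ∫_x^(x+h) μ_T(y) dy|^β ~ 2^(-β²/4) a(β/2) L h^(-β²/4)`,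
where `a(k)` is the arithmetic factor of the moment conjecture and `L` is the limit, as `η → 0+`, of the moment of order
`β` of the integral of `e^G` over the vertical segment from `η` to `η + i`, with the random analytic function
`G(w) = - k log ((1 + w)/2) + ∑_{m ≥ 1} ((w - 1)/(w + 1))^m g_m / √m`, `k = β/2`, on `Re w > 0`.
-/

open Filter Topology MeasureTheory ProbabilityTheory

namespace Pool.Agent.Results.MP_f9aece_nt.IntervalMeans

/-- the arithmetic factor of the moment conjecture for `|ζ|^(2k)` -/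
noncomputable def ak (k : ℝ) : ℝ :=
  ∏' p : Nat.Primes, ((1 - 1 / (p : ℝ)) ^ (k ^ 2) *
    ∑' m : ℕ, (Real.Gamma (k + m) / (Real.Gamma k * (m.factorial : ℝ))) ^ 2 / (p : ℝ) ^ m)

/-- the law of a sequence of independent pairs of independent standard real normal variables -/
noncomputable def seqLaw : Measure (ℕ → ℝ × ℝ) := Measure.infinitePi fun _ : ℕ => (gaussianReal 0 1).prod (gaussianReal 0 1)

/-- a standard complex normal variable, as a function of two independent standard real normal variables -/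
noncomputable def gau (x : ℝ × ℝ) : ℂ := ((x.1 : ℂ) + Complex.I * (x.2 : ℂ)) / (Real.sqrt 2 : ℂ)

/-- the random analytic function -/
noncomputable def field (k : ℝ) (ω : ℕ → ℝ × ℝ) (w : ℂ) : ℂ :=
  -(k * Complex.log ((1 + w) / 2)) + ∑' m : ℕ, ((w - 1) / (w + 1)) ^ (m + 1) * gau (ω m) / (Real.sqrt ((m : ℝ) + 1) : ℂ)

theorem result (β : ℝ) (hβ : 0 < β) (hβ4 : β < 4) :
    0 < ak (β / 2) ∧
    ∃ L : ℝ, 0 < L ∧
      -- the constant: almost surely `G` is analytic at every point of `Re w > 0`, the powers below are integrable, and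
      -- their means converge to `L`
      (∀ᵐ ω ∂seqLaw, ∀ w : ℂ, 0 < w.re → DifferentiableAt ℂ (field (β / 2) ω) w) ∧
      (∀ η : ℝ, 0 < η →
        Integrable (fun ω => ‖∫ y in (0:ℝ)..1, Complex.exp (field (β / 2) ω (η + y * Complex.I))‖ ^ β) seqLaw) ∧
      Tendsto (fun η : ℝ => ∫ ω, ‖∫ y in (0:ℝ)..1, Complex.exp (field (β / 2) ω (η + y * Complex.I))‖ ^ β ∂seqLaw)
        (𝓝[>] 0) (𝓝 L) ∧
      -- the moments of the means of zeta over the intervals of length `h(T)`
      ∀ (x : ℝ) (h : ℝ → ℝ), Tendsto h atTop (𝓝 0) → Tendsto (fun T : ℝ => h T * Real.log T) atTop atTop →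
        Tendsto (fun T : ℝ => h T ^ (β ^ 2 / 4) *
          ∫ u in (0:ℝ)..1, ‖1 / h T * ∫ y in (0:ℝ)..h T, riemannZeta (1 / 2 + (x + y + u * T) * Complex.I)‖ ^ β) atTop
          (𝓝 (2 ^ (-(β ^ 2 / 4)) * ak (β / 2) * L)) := by
  obtain ⟨k, hk⟩ : ∃ k : ℝ, k = β / 2 := ⟨_, rfl⟩
  have hk0 : 0 < k := by rw [hk]; positivity
  have hk2 : k < 2 := by rw [hk]; linarith
  have h2k : 2 * k = β := by rw [hk]; ring
  have hkk : k ^ 2 = β ^ 2 / 4 := by rw [hk]; ring
  have e1 : ∀ m : ℕ, Real.Gamma (k + m) / (Real.Gamma k * (m.factorial : ℝ)) = Pool.Agent.H306R2.lc k m := by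
    intro m
    have hG : Real.Gamma k ≠ 0 := (Real.Gamma_pos_of_pos hk0).ne'
    induction m with
    | zero =>
      unfold Pool.Agent.H306R2.lc
      simp [hG]
    | succ m ih =>
      have h1 : Pool.Agent.H306R2.lc k (m + 1) = Pool.Agent.H306R2.lc k m * ((k + m) / ((m : ℝ) + 1)) := by
        unfold Pool.Agent.H306R2.lc
        rw [Finset.prod_range_succ]
      have hkm : k + (m : ℝ) ≠ 0 := by positivity
      have h2 : Real.Gamma (k + ((m + 1 : ℕ) : ℝ)) = (k + m) * Real.Gamma (k + m) := by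
        rw [← Real.Gamma_add_one hkm]
        congr 1
        push_cast
        ring
      have hf : (m.factorial : ℝ) ≠ 0 := by positivity
      rw [h1, ← ih, h2, Nat.factorial_succ]
      push_cast
      field_simp
  have e3 : ak k = Pool.Agent.H306R2.aF k := by
    unfold ak Pool.Agent.H306R2.aF
    refine tprod_congr fun p => ?_
    simp_rw [e1, one_div, inv_pow, div_eq_mul_inv]
  obtain ⟨L, hL0, hL, H⟩ := Pool.Agent.T6.H6.MA.all_lim hk0 hk2
  have hfg : ∀ᵐ ω ∂seqLaw, ∀ w : ℂ, 0 < w.re → DifferentiableAt ℂ (field k ω) w := by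
    filter_upwards [Pool.Agent.R313.CX.fld_good k] with ω hω w hw using (hω w hw).2
  have hint : ∀ η : ℝ, 0 < η →
      Integrable (fun ω => ‖∫ y in (0:ℝ)..1, Complex.exp (field k ω (η + y * Complex.I))‖ ^ β) seqLaw :=
    fun η hη => Pool.Agent.T6.H6.MA.Xe_pow_int k hη hβ
  rw [h2k] at hL H
  rw [← hk, e3]
  refine ⟨Pool.Agent.H306R2.aF_pos hk0, L, hL0, hfg, hint, hL, fun x h hh hhL => ?_⟩
  have h1 := Pool.Agent.T6.H6.MA.shift_lim (k := k) hk0 (by rw [h2k]; exact H) x hh hhL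
  rw [h2k, hkk] at h1
  have h2 := h1.const_mul ((2:ℝ) ^ (-(β ^ 2 / 4)))
  rw [← mul_assoc] at h2
  refine h2.congr' ?_
  have hpos : ∀ᶠ T in atTop, 0 < h T := by
    filter_upwards [hhL.eventually_gt_atTop 0, eventually_gt_atTop 1] with T hT hT1
    exact (pos_iff_pos_of_mul_pos hT).mpr (Real.log_pos hT1)
  filter_upwards [hpos] with T hT
  rw [← mul_assoc, Real.mul_rpow (by norm_num) hT.le, ← mul_assoc, ← Real.rpow_add (by norm_num), neg_add_cancel,
    Real.rpow_zero, one_mul]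
  congr 1
  refine intervalIntegral.integral_congr fun u _ => ?_
  unfold Pool.Agent.T6.H6.MA.mB
  show ‖((h T : ℝ) : ℂ)⁻¹ * ∫ y in (0:ℝ)..h T, riemannZeta (((1 / 2 + 0 : ℝ) : ℂ) + ((x + u * T + y : ℝ) : ℂ) * Complex.I)‖ ^ β =
    ‖1 / ((h T : ℝ) : ℂ) * ∫ y in (0:ℝ)..h T, riemannZeta (1 / 2 + (x + y + u * T) * Complex.I)‖ ^ β
  have e4 : ∫ y in (0:ℝ)..h T, riemannZeta (((1 / 2 + 0 : ℝ) : ℂ) + ((x + u * T + y : ℝ) : ℂ) * Complex.I) =
      ∫ y in (0:ℝ)..h T, riemannZeta (1 / 2 + (x + y + u * T) * Complex.I) := by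
    refine intervalIntegral.integral_congr fun y _ => ?_
    show riemannZeta (((1 / 2 + 0 : ℝ) : ℂ) + ((x + u * T + y : ℝ) : ℂ) * Complex.I) =
      riemannZeta (1 / 2 + (x + y + u * T) * Complex.I)
    congr 1
    push_cast
    ring
  rw [e4, one_div ((h T : ℝ) : ℂ)]

end Pool.Agent.Results.MP_f9aece_nt.IntervalMeans
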