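import Pool.Agent.T6.H99.CH.V9

set_option autoImplicit false

/-!
# MP_f9aece_nt: the law of the local moments of zeta near the critical line

Let `0 < β < √2`, `δ(T) → 0`, `δ(T) log T → ∞` (at any rate) and let `u` be uniform on `[0, 1]`. For every continuous
`f` on `[a, b]` the normalised local moment

`(2δ)^(β²/4) ∫_a^b f(x) |ζ(1/2 + δ + i(x + uT))|^β dx`

converges in law, together with its mean, to `a(β/2) Z`, where `a(β/2)` is the arithmetic factor of the moment conjecture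
and `Z` is the integral of `f` against the multiplicative chaos of the random Euler product: the limit in mean square of
`∫_a^b f(x) |ζ_z(x)|^β / E |ζ_z(x)|^β dx`, `ζ_z(x) = ∏_{p < z} (1 - e(θ_p) p^(-1/2-ix))⁻¹`. Its mean is `∫_a^b f`.
With `f = 1` and `φ(x) = x` this is the asymptotic formula for the moment of order `β`; with `φ(x) = |x|^q`, `q ≤ 1`, it is
the asymptotic formula for the moments of the local moments.
-/

open Filter Topology MeasureTheory ProbabilityTheory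

namespace Pool.Agent.Results.MP_f9aece_nt.LocalMomentsNearLine

/-- the coefficients `Γ(κ + m) / (Γ(κ) m!)` of `(1 - x)^(-κ)` -/
noncomputable def dd (κ : ℝ) (m : ℕ) : ℝ := Real.Gamma (κ + m) / (Real.Gamma κ * (m.factorial : ℝ))

/-- the arithmetic factor of the moment conjecture for `|ζ|^(2κ)` -/
noncomputable def ak (κ : ℝ) : ℝ :=
  ∏' p : Nat.Primes, ((1 - 1 / (p : ℝ)) ^ (κ ^ 2) * ∑' m : ℕ, dd κ m ^ 2 / (p : ℝ) ^ m)

/-- the random Euler product `∏_{p < z} (1 - e(θ_p) p^(-1/2-ix))⁻¹` -/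
noncomputable def zr {Ω : Type*} (θ : ℕ → Ω → ℝ) (z : ℕ) (ω : Ω) (x : ℝ) : ℂ :=
  ∏ p ∈ (Finset.range z).filter Nat.Prime,
    (1 - Complex.exp (2 * Real.pi * Complex.I * θ p ω) * (p : ℂ) ^ (-(1 / 2 + Complex.I * (x : ℂ))))⁻¹

theorem result {Ω : Type*} [MeasurableSpace Ω] (P : Measure Ω) [IsProbabilityMeasure P] (θ : ℕ → Ω → ℝ)
    (hθm : ∀ n, Measurable (θ n)) (hθi : iIndepFun θ P) (hθu : ∀ n, P.map (θ n) = volume.restrict (Set.Icc 0 1))
    (β : ℝ) (hβ : 0 < β) (hβ2 : β ^ 2 < 2) (δ : ℝ → ℝ) (hδ : Tendsto δ atTop (𝓝 0))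
    (hδL : Tendsto (fun T : ℝ => δ T * Real.log T) atTop atTop) (a b : ℝ) (hab : a ≤ b) (f : ℝ → ℝ) (hf : Continuous f) :
    0 < ak (β / 2) ∧
    ∃ Z : Ω → ℝ, Measurable Z ∧ MemLp Z 2 P ∧ (∫ ω, Z ω ∂P = ∫ x in a..b, f x) ∧
      Tendsto (fun z : ℕ => ∫ ω, ((∫ x in a..b, f x *
        (‖zr θ z ω x‖ ^ β / ∫ ω', ‖zr θ z ω' x‖ ^ β ∂P)) - Z ω) ^ 2 ∂P) atTop (𝓝 0) ∧
      ∀ φ : ℝ → ℝ, Continuous φ → (∃ C, ∀ x, |φ x| ≤ C * (1 + |x|)) →
        Tendsto (fun T : ℝ => ∫ u in (0:ℝ)..1, φ ((2 * δ T) ^ (β ^ 2 / 4) *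
          ∫ x in a..b, f x * ‖riemannZeta (1 / 2 + δ T + Complex.I * ((x + u * T : ℝ) : ℂ))‖ ^ β)) atTop
          (𝓝 (∫ ω, φ (ak (β / 2) * Z ω) ∂P)) := by
  have e1 : ∀ k : ℝ, 0 < k → ∀ m : ℕ, dd k m = Pool.Agent.H306R2.lc k m := by
    intro k hk m
    unfold dd
    have hG : Real.Gamma k ≠ 0 := (Real.Gamma_pos_of_pos hk).ne'
    induction m with
    | zero =>
      unfold Pool.Agent.H306R2.lc
      simp [hG]
    | succ m ih =>
      have h1 : Pool.Agent.H306R2.lc k (m + 1) = Pool.Agent.H306R2.lc k m * ((k + m) / ((m : ℝ) + 1)) := by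
        unfold Pool.Agent.H306R2.lc
        rw [Finset.prod_range_succ]
      have hkm : k + (m : ℝ) ≠ 0 := by positivity
      have h2 : Real.Gamma (k + ((m + 1 : ℕ) : ℝ)) = (k + m) * Real.Gamma (k + m) := by
        rw [← Real.Gamma_add_one hkm]
        congr 1
        push_cast
        ring
      have hf : (m.factorial : ℝ) ≠ 0 := by positivity
      rw [h1, ← ih, h2, Nat.factorial_succ]
      push_cast
      field_simp
  have e3 : ∀ k : ℝ, 0 < k → ak k = Pool.Agent.H306R2.aF k := by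
    intro k hk
    unfold ak Pool.Agent.H306R2.aF
    refine tprod_congr fun p => ?_
    simp_rw [e1 k hk, one_div, inv_pow, div_eq_mul_inv]
  have hβ2' : 0 < β / 2 := by positivity
  rw [e3 _ hβ2']
  exact ⟨Pool.Agent.H306R2.aF_pos hβ2', Pool.Agent.T6.H99.CH.final hθm hθi hθu hβ hβ2 hδ hδL hab hf⟩

end Pool.Agent.Results.MP_f9aece_nt.LocalMomentsNearLine
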