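import Pool.Agent.T6.H57.NS.ShL

set_option autoImplicit false

/-!
# MP_f9aece_nt: the order of the moments of order `0 < β ≤ 2`, uniformly in the shifts `|x| ≤ T^A`, `A < 2`,
with constants which tend to `1` as `β → 0`

Write `E(β, x, T) = ∫_0^1 |ζ(1/2 + ix + iuT)|^β du`, the moment `a(T)` of the problem with shift `x`.
For every `A < 2` there are `c(β), C(β) > 0` with `c(β), C(β) → 1` as `β → 0` such that, unconditionally, for every real
`0 < β ≤ 2` and all large `T`, uniformly for all real `|x| ≤ T^A`,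

`c(β) exp (¼ β² log log T) ≤ E(β, x, T) ≤ C(β) exp (¼ β² log log T)`.

Thus the mean of `|ζ(1/2 + it)|^β` has the predicted order over all intervals `[X, X + H]` with `H ≥ X^θ`, `θ > 1/2`.
-/

open Filter Topology

namespace Pool.Agent.Results.MP_f9aece_nt.UniformShifts

open Pool.Agent.Y755 (mom)
open Pool.Agent.T6.H57.NS

/-- the moment `∫_0^1 |ζ(1/2 + ix + iuT)|^β du` -/
noncomputable def E (β x T : ℝ) : ℝ :=
  ∫ u in (0:ℝ)..1, ‖riemannZeta (1 / 2 + x * Complex.I + (u * T) * Complex.I)‖ ^ β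

/-- the predicted size `exp (¼ β² log log T) = (log T)^(β²/4)` -/
noncomputable def S (β T : ℝ) : ℝ := Real.exp (1 / 4 * β ^ 2 * Real.log (Real.log T))

lemma E_mom (β x T : ℝ) : E β x T = mom (2 * (β / 2)) (1 / 2) x T := by
  unfold E mom
  have e : 2 * (β / 2) = β := by ring
  rw [e]
  push_cast
  rfl

lemma S_eq {β T : ℝ} (hL : 0 < Real.log T) : S β T = Real.log T ^ ((β / 2) ^ 2) := by
  unfold S
  rw [Real.rpow_def_of_pos hL]
  congr 1; ring

lemma S_pos (β T : ℝ) : 0 < S β T := Real.exp_pos _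

theorem result (A : ℝ) (hA : A < 2) : ∃ c C : ℝ → ℝ, Tendsto c (𝓝[>] 0) (𝓝 1) ∧ Tendsto C (𝓝[>] 0) (𝓝 1) ∧
    ∀ β : ℝ, 0 < β → β ≤ 2 → 0 < c β ∧ ∀ᶠ T : ℝ in atTop, ∀ x : ℝ, |x| ≤ T ^ A →
      c β * S β T ≤ E β x T ∧ E β x T ≤ C β * S β T := by
  classical
  set B := max A 1 with hB
  have hB1 : 1 ≤ B := le_max_right _ _
  have hAB : A ≤ B := le_max_left _ _
  have hB2 : B < 2 := max_lt hA (by norm_num)
  have hTB : ∀ T : ℝ, 1 ≤ T → ∀ x : ℝ, |x| ≤ T ^ A → |x| ≤ T ^ B := fun T hT x hx =>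
    hx.trans (Real.rpow_le_rpow_of_exponent_le hT hAB)
  -- the order
  have h1 : ∀ β : ℝ, ∃ c C : ℝ, 0 < β → β ≤ 2 → 0 < c ∧ ∀ᶠ T : ℝ in atTop, ∀ x : ℝ, |x| ≤ T ^ A →
      c * S β T ≤ E β x T ∧ E β x T ≤ C * S β T := by
    intro β
    by_cases hβ : 0 < β ∧ β ≤ 2
    · obtain ⟨hβ, hβ2⟩ := hβ
      obtain ⟨C, α₀, hC, _, hu⟩ := shL hB1 hB2 (ρ := 1) one_pos
      obtain ⟨c, hc, hl⟩ := shLow hB1 hB2 (α := β / 2) (by positivity) (by linarith)
      refine ⟨c, C, fun _ _ => ⟨hc, ?_⟩⟩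
      filter_upwards [hu, hl, eventually_gt_atTop 1] with T g1 g2 g3 x hx
      have hL := Real.log_pos g3
      rw [E_mom, S_eq hL]
      exact ⟨g2 x (hTB T g3.le x hx), (g1 (β / 2) (by positivity) (by linarith) x (hTB T g3.le x hx)).1⟩
    · exact ⟨0, 0, fun h h' => absurd ⟨h, h'⟩ hβ⟩
  choose c₀ C₀ h1 using h1
  -- small exponents
  set P : ℝ → ℝ → Prop := fun β ε => ∀ᶠ T : ℝ in atTop, ∀ x : ℝ, |x| ≤ T ^ A →
      (1 - ε) * S β T ≤ E β x T ∧ E β x T ≤ (1 + ε) * S β T with hP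
  have hmono : ∀ β ε ε' : ℝ, ε ≤ ε' → P β ε → P β ε' := by
    intro β ε ε' he h
    filter_upwards [h] with T g x hx
    have hS := S_pos β T
    exact ⟨(mul_le_mul_of_nonneg_right (by linarith) hS.le).trans (g x hx).1,
      (g x hx).2.trans (mul_le_mul_of_nonneg_right (by linarith) hS.le)⟩
  have h2 : ∀ ε : ℝ, 0 < ε → ∃ β₀ : ℝ, 0 < β₀ ∧ ∀ β : ℝ, 0 < β → β ≤ β₀ → P β ε := by
    intro ε hε
    obtain ⟨C, α₀, _, hα₀, hu⟩ := shL hB1 hB2 hε
    refine ⟨min (2 * α₀) 2, lt_min (by positivity) (by norm_num), fun β hβ hββ => ?_⟩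
    have hb1 := hββ.trans (min_le_left _ _)
    have hb2 := hββ.trans (min_le_right _ _)
    filter_upwards [hu, eventually_gt_atTop 1] with T g1 g3 x hx
    have hL := Real.log_pos g3
    rw [E_mom, S_eq hL]
    exact (g1 (β / 2) (by positivity) (by linarith) x (hTB T g3.le x hx)).2 (by linarith)
  set G : ℝ → Set ℝ := fun β => {ε | 0 < ε ∧ P β ε} with hG
  have hbdd : ∀ β, BddBelow (G β) := fun β => ⟨0, fun ε hε => hε.1.le⟩
  set e : ℝ → ℝ := fun β => sInf (G β) + β with he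
  have hP1 : ∀ β : ℝ, 0 < β → (G β).Nonempty → P β (e β) := by
    intro β hβ hne
    obtain ⟨ε, hε, hlt⟩ := exists_lt_of_csInf_lt hne (show sInf (G β) < e β by simp only [he]; linarith)
    exact hmono β ε _ hlt.le hε.2
  have he0 : ∀ β : ℝ, 0 < β → 0 ≤ e β := by
    intro β hβ
    have : 0 ≤ sInf (G β) := Real.sInf_nonneg fun ε hε => hε.1.le
    simp only [he]
    linarith
  set c : ℝ → ℝ := fun β => if P β (e β) ∧ e β < 1 then 1 - e β else c₀ β with hc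
  set C : ℝ → ℝ := fun β => if P β (e β) ∧ e β < 1 then 1 + e β else C₀ β with hC
  have hsmall : ∀ ε : ℝ, 0 < ε → ∀ᶠ β in 𝓝[>] (0:ℝ), P β (e β) ∧ e β < 1 ∧ 0 ≤ e β ∧ e β < ε := by
    intro ε hε
    set r := min (ε / 3) (1 / 3) with hr
    have hr0 : 0 < r := lt_min (by positivity) (by norm_num)
    have hr1 : r ≤ ε / 3 := min_le_left _ _
    have hr2 : r ≤ 1 / 3 := min_le_right _ _
    obtain ⟨β₀, hβ₀, h3⟩ := h2 r hr0
    have hm : 0 < min β₀ r := lt_min hβ₀ hr0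
    filter_upwards [Ioo_mem_nhdsGT hm] with β hβ
    have hβ0 : 0 < β := hβ.1
    have hb1 : β ≤ β₀ := hβ.2.le.trans (min_le_left _ _)
    have hb2 : β ≤ r := hβ.2.le.trans (min_le_right _ _)
    have hmem : r ∈ G β := ⟨hr0, h3 β hβ0 hb1⟩
    have hle : sInf (G β) ≤ r := csInf_le (hbdd β) hmem
    have hel : e β ≤ 2 * r := by simp only [he]; linarith
    exact ⟨hP1 β hβ0 ⟨r, hmem⟩, by linarith, he0 β hβ0, by linarith⟩
  refine ⟨c, C, ?_, ?_, ?_⟩
  · rw [Metric.tendsto_nhds]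
    intro ε hε
    filter_upwards [hsmall ε hε] with β hβ
    have : c β = 1 - e β := by simp only [hc]; rw [if_pos ⟨hβ.1, hβ.2.1⟩]
    rw [this, Real.dist_eq, abs_lt]
    constructor <;> linarith [hβ.2.2.1, hβ.2.2.2]
  · rw [Metric.tendsto_nhds]
    intro ε hε
    filter_upwards [hsmall ε hε] with β hβ
    have : C β = 1 + e β := by simp only [hC]; rw [if_pos ⟨hβ.1, hβ.2.1⟩]
    rw [this, Real.dist_eq, abs_lt]
    constructor <;> linarith [hβ.2.2.1, hβ.2.2.2]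
  · intro β hβ hβ2
    by_cases h : P β (e β) ∧ e β < 1
    · have e1 : c β = 1 - e β := by simp only [hc]; rw [if_pos h]
      have e2 : C β = 1 + e β := by simp only [hC]; rw [if_pos h]
      rw [e1, e2]
      exact ⟨by linarith [h.2], h.1⟩
    · have e1 : c β = c₀ β := by simp only [hc]; rw [if_neg h]
      have e2 : C β = C₀ β := by simp only [hC]; rw [if_neg h]
      rw [e1, e2]
      exact h1 β hβ hβ2

end Pool.Agent.Results.MP_f9aece_nt.UniformShifts
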